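import Mathlib
import Pool.Agent.TH899.UG.Qd
import Pool.Agent.TH779.Shat.Trace

/-! Hereditary exact patterns in boxes of linear forms (helper876). -/

set_option autoImplicit false

namespace Pool.Agent.Y876.HT

open Finset Filter
open Pool.Agent.H732R3.BigQ

/-- the `n` for which `J` is the set of the indices of the forms with prime values at `n` -/
def Pat {T : ℕ} (f : Fin T → ℤ × ℤ) (J : Finset (Fin T)) : Set ℕ :=
  {n : ℕ | ∀ i, ((f i).1 * (n : ℤ) + (f i).2).natAbs.Prime ↔ i ∈ J}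

/-- congruences which make the values of the forms outside `S` divisible by primes of the modulus,
the values of the forms in `S` prime to the modulus, all values larger than the modulus -/
theorem congrZ {ι : Type*} [Fintype ι] [DecidableEq ι] (a b : ι → ℤ) (ha : ∀ i, 0 < a i)
    (hne : ∀ i j, i ≠ j → a i * b j ≠ a j * b i) (S : Finset ι) :
    ∃ W ν : ℕ, 1 ≤ W ∧ (∀ i, (W : ℤ) < a i * ν + b i) ∧
      (∀ i ∉ S, ∃ p : ℕ, p.Prime ∧ p ∣ W ∧ (p : ℤ) ∣ a i * ν + b i) ∧
      ∀ p : ℕ, p.Prime → p ∣ W → ∀ j ∈ S, ¬ (p : ℤ) ∣ a j * ν + b j := by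
  classical
  obtain ⟨s, hs⟩ : ∃ s : ℕ, s = ∑ i, (b i).natAbs := ⟨_, rfl⟩
  set A : ι → ℕ := fun i => (a i).toNat with hA
  set B : ι → ℕ := fun i => (a i * s + b i).toNat with hB
  have hAi : ∀ i, ((A i : ℕ) : ℤ) = a i := fun i => Int.toNat_of_nonneg (ha i).le
  have hsb : ∀ i, -(s : ℤ) ≤ b i := by
    intro i
    have h1 : (b i).natAbs ≤ s := by
      rw [hs]
      exact single_le_sum (f := fun i => (b i).natAbs) (fun _ _ => Nat.zero_le _) (mem_univ i)
    omega
  have hBi : ∀ i, ((B i : ℕ) : ℤ) = a i * s + b i := by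
    intro i
    apply Int.toNat_of_nonneg
    have h2 := hsb i
    have h3 : (s : ℤ) ≤ a i * s := by
      have := ha i
      nlinarith [Int.natCast_nonneg s]
    linarith
  obtain ⟨W, ν, hW, h1, h2⟩ := Pool.Agent.TH779.Shat.congruences A B (fun i => by
      have h1 := hAi i
      have h2 := ha i
      omega)
    (by
      intro i j hij h
      apply hne i j hij
      have h1 : ((A i * B j : ℕ) : ℤ) = ((A j * B i : ℕ) : ℤ) := by rw [h]
      push_cast at h1
      rw [hAi, hAi, hBi, hBi] at h1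
      linarith) S (univ \ S) sdiff_disjoint
  have hval : ∀ i (t : ℕ), a i * ((ν + s + W * (s + W + 1) * t : ℕ) : ℤ) + b i =
      ((A i * ν + B i : ℕ) : ℤ) + (W : ℤ) * ((s + W + 1) * a i * t) := by
    intro i t
    push_cast
    rw [hAi, hBi]
    ring
  refine ⟨W, ν + s + W * (s + W + 1) * 1, hW, ?_, ?_, ?_⟩
  · intro i
    rw [hval i 1]
    have h3 : (0 : ℤ) ≤ ((A i * ν + B i : ℕ) : ℤ) := Int.natCast_nonneg _
    have h4 : (1 : ℤ) ≤ W := by exact_mod_cast hW
    have h5 : (0 : ℤ) ≤ s := Int.natCast_nonneg s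
    have h6 : 0 < a i := ha i
    have h7 : (W : ℤ) + 1 ≤ (s + W + 1) * a i * ((1 : ℕ) : ℤ) := by
      push_cast
      nlinarith
    nlinarith
  · intro i hi
    obtain ⟨p, hp, hpW, hpd⟩ := h1 i (mem_sdiff.2 ⟨mem_univ _, hi⟩)
    refine ⟨p, hp, hpW, ?_⟩
    rw [hval i 1]
    exact dvd_add (Int.natCast_dvd_natCast.2 hpd)
      (Dvd.dvd.mul_right (Int.natCast_dvd_natCast.2 hpW) _)
  · intro p hp hpW j hj hd
    rw [hval j 1] at hd
    have h3 := (Int.dvd_add_left (Dvd.dvd.mul_right (Int.natCast_dvd_natCast.2 hpW) _)).1 hd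
    exact h2 p hp hpW j hj (Int.natCast_dvd_natCast.1 h3)

/-- distinct primitive forms are not proportional -/
theorem prim_ne {f g : ℤ × ℤ} (hf : 0 < f.1) (hg : 0 < g.1) (hf' : IsCoprime f.1 f.2)
    (hg' : IsCoprime g.1 g.2) (hne : f ≠ g) : f.1 * g.2 ≠ g.1 * f.2 := by
  intro h
  apply hne
  have h1 : f.1 ∣ g.1 := by
    have h2 : f.1 ∣ g.1 * f.2 := ⟨g.2, h.symm⟩
    exact hf'.dvd_of_dvd_mul_right h2
  have h2 : g.1 ∣ f.1 := by
    have h3 : g.1 ∣ f.1 * g.2 := ⟨f.2, h⟩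
    exact hg'.dvd_of_dvd_mul_right h3
  have h3 : f.1 = g.1 := Int.dvd_antisymm hf.le hg.le h1 h2
  have h4 : f.2 = g.2 := by
    rw [h3] at h
    exact (mul_left_cancel₀ hg.ne' h).symm
  exact Prod.ext h3 h4

theorem not_prime_of {z : ℤ} {p W : ℕ} (hp : p.Prime) (hpW : p ∣ W) (hW : 1 ≤ W) (hz : (W : ℤ) < z)
    (hd : (p : ℤ) ∣ z) : ¬ z.natAbs.Prime := by
  intro h
  have h1 : p ∣ z.natAbs := Int.natCast_dvd.1 hd
  have h2 := (Nat.prime_dvd_prime_iff_eq hp h).1 h1
  have h3 := Nat.le_of_dvd hW hpW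
  omega

/-- the property of `K` for `T` classes in the coloured Maynard-Tao theorem -/
def QP (c₀ : ℝ) (T K : ℕ) : Prop := ∀ (a b : Fin T → Fin K → ℤ), (∀ g i, 0 < a g i) →
    Function.Injective (fun x : Fin T × Fin K => (a x.1 x.2, b x.1 x.2)) →
    (∀ p : ℕ, p.Prime → ∃ n : ℤ, ∀ g i, ¬ ((p : ℤ) ∣ a g i * n + b g i)) →
    ∃ (S : Finset (Fin T)) (c : Fin T → Fin K), (T : ℝ) ≤ (4 - c₀) * S.card ∧
      Big {n : ℕ | ∀ g ∈ S, 0 < a g (c g) * (n : ℤ) + b g (c g) ∧
        Prime (a g (c g) * (n : ℤ) + b g (c g))}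

/-- In a box of forms all subsets of a large set of classes are exact patterns of transversals. -/
theorem her_core (c₀ : ℝ) (T K₁ K' : ℕ) (hK : K' + 1 ≤ K₁) (A : Fin T → Fin K₁ → ℤ × ℤ)
    (hpos : ∀ g i, 0 < (A g i).1)
    (hinj : Function.Injective (fun x : Fin T × Fin K₁ => A x.1 x.2))
    (hadm : ∀ p : ℕ, p.Prime → ∃ n : ℤ, ∀ g i, ¬ ((p : ℤ) ∣ (A g i).1 * n + (A g i).2))
    (A₀ : Finset (Fin T)) (hq : QP c₀ A₀.card K') :
    ∃ I ⊆ A₀, (A₀.card : ℝ) ≤ (4 - c₀) * I.card ∧ ∀ J ⊆ I, ∃ c : Fin T → Fin K₁,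
      Big (Pat (fun g => A g (c g)) J) := by
  classical
  -- all forms are primitive
  have hprim : ∀ g i, IsCoprime (A g i).1 (A g i).2 := by
    intro g i
    rw [Int.isCoprime_iff_gcd_eq_one]
    by_contra hcon
    obtain ⟨p, hp, hpd⟩ := Nat.exists_prime_and_dvd hcon
    obtain ⟨n, hn⟩ := hadm p hp
    apply hn g i
    have h1 : (p : ℤ) ∣ (A g i).1 := (Int.natCast_dvd_natCast.mpr hpd).trans (Int.gcd_dvd_left ..)
    have h2 : (p : ℤ) ∣ (A g i).2 := (Int.natCast_dvd_natCast.mpr hpd).trans (Int.gcd_dvd_right ..)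
    exact dvd_add (h1.mul_right _) h2
  set e : Fin A₀.card ≃ A₀ := A₀.equivFin.symm with he
  set ι₁ : Fin K' → Fin K₁ := fun i => Fin.castLE (by omega) i with hι₁
  have hι₁inj : Function.Injective ι₁ := fun i j h => Fin.castLE_injective _ h
  set last : Fin K₁ := ⟨K', by omega⟩ with hlast
  have hlast' : ∀ i, ι₁ i ≠ last := by
    intro i h
    have := congrArg Fin.val h
    simp only [hι₁, hlast, Fin.val_castLE] at this
    have := i.2
    omega
  set Sv : Finset (Fin T × Fin K₁) :=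
    univ.image (fun x : Fin A₀.card × Fin K' => ((e x.1 : Fin T), ι₁ x.2)) with hSv
  obtain ⟨W, ν, hW, hbig, hkill, hsurv⟩ := congrZ (fun x : Fin T × Fin K₁ => (A x.1 x.2).1)
    (fun x => (A x.1 x.2).2) (fun x => hpos _ _)
    (fun x y hxy => prim_ne (hpos _ _) (hpos _ _) (hprim _ _) (hprim _ _)
      (fun h => hxy (hinj h))) Sv
  have hWpos : (0 : ℤ) < W := by exact_mod_cast hW
  -- the forms in the progression
  obtain ⟨S, c, hS1, hS2⟩ := hq (fun g i => (A (e g) (ι₁ i)).1 * W)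
    (fun g i => (A (e g) (ι₁ i)).1 * ν + (A (e g) (ι₁ i)).2)
    (fun g i => mul_pos (hpos _ _) hWpos)
    (by
      rintro ⟨g, i⟩ ⟨g', i'⟩ h
      simp only [Prod.mk.injEq] at h
      have h1 : (A (e g) (ι₁ i)).1 = (A (e g') (ι₁ i')).1 := mul_right_cancel₀ hWpos.ne' h.1
      have h2 : (A (e g) (ι₁ i)).2 = (A (e g') (ι₁ i')).2 := by
        have := h.2
        rw [h1] at this
        linarith
      have h3 := hinj (a₁ := ((e g : Fin T), ι₁ i)) (a₂ := ((e g' : Fin T), ι₁ i'))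
        (Prod.ext h1 h2)
      simp only [Prod.mk.injEq] at h3
      exact Prod.ext (e.injective (Subtype.ext h3.1)) (hι₁inj h3.2))
    (by
      intro p hp
      by_cases hpW : p ∣ W
      · refine ⟨0, fun g i => ?_⟩
        have h1 := hsurv p hp hpW ((e g : Fin T), ι₁ i) (by
          rw [hSv]
          exact mem_image_of_mem (fun x : Fin A₀.card × Fin K' => ((e x.1 : Fin T), ι₁ x.2))
            (mem_univ (g, i)))
        simpa using h1
      · obtain ⟨n, hn⟩ := hadm p hp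
        have hcop : IsCoprime (W : ℤ) (p : ℤ) := by
          rw [Nat.isCoprime_iff_coprime]
          exact ((Nat.Prime.coprime_iff_not_dvd hp).2 hpW).symm
        obtain ⟨u, v, huv⟩ := hcop
        refine ⟨u * (n - ν), fun g i hd => hn (e g) (ι₁ i) ?_⟩
        have h1 : (A (e g) (ι₁ i)).1 * n + (A (e g) (ι₁ i)).2 =
            ((A (e g) (ι₁ i)).1 * W * (u * (n - ν)) + ((A (e g) (ι₁ i)).1 * ν +
              (A (e g) (ι₁ i)).2)) + p * ((A (e g) (ι₁ i)).1 * v * (n - ν)) := by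
          have h2 : n - ν = (u * W + v * p) * (n - ν) := by rw [huv, one_mul]
          linear_combination (A (e g) (ι₁ i)).1 * h2
        rw [h1]
        exact dvd_add hd (Dvd.intro _ rfl))
  refine ⟨S.image (fun g => (e g : Fin T)), ?_, ?_, ?_⟩
  · intro x hx
    obtain ⟨g, _, rfl⟩ := mem_image.1 hx
    exact (e g).2
  · rw [card_image_of_injective S (fun g g' h => e.injective (Subtype.ext h))]
    exact hS1
  · intro J hJ
    -- the transversal
    refine ⟨fun i => if h : i ∈ A₀ ∧ i ∈ J then ι₁ (c (e.symm ⟨i, h.1⟩)) else last, ?_⟩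
    refine Big.affine hS2 W ν hW (fun m => W * m + ν) (fun m _ => by push_cast; ring) ?_
    intro m hm i
    have hm' : ∀ g ∈ S, 0 < (A (e g) (ι₁ (c g))).1 * W * (m : ℤ) +
        ((A (e g) (ι₁ (c g))).1 * ν + (A (e g) (ι₁ (c g))).2) ∧
        Prime ((A (e g) (ι₁ (c g))).1 * W * (m : ℤ) +
          ((A (e g) (ι₁ (c g))).1 * ν + (A (e g) (ι₁ (c g))).2)) := hm
    by_cases hiJ : i ∈ J
    · obtain ⟨g, hg, hgi⟩ := mem_image.1 (hJ hiJ)
      have hiA : i ∈ A₀ := by rw [← hgi]; exact (e g).2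
      have hsym : e.symm ⟨i, hiA⟩ = g := by
        rw [Equiv.symm_apply_eq]
        exact Subtype.ext hgi.symm
      have h1 := (hm' g hg).2
      rw [Int.prime_iff_natAbs_prime] at h1
      beta_reduce
      rw [dif_pos (And.intro hiA hiJ), hsym]
      refine ⟨fun _ => hiJ, fun _ => ?_⟩
      rw [hgi] at h1
      have h2 : (A i (ι₁ (c g))).1 * ((W * m + ν : ℕ) : ℤ) + (A i (ι₁ (c g))).2 =
          (A i (ι₁ (c g))).1 * W * (m : ℤ) + ((A i (ι₁ (c g))).1 * ν + (A i (ι₁ (c g))).2) := by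
        push_cast; ring
      rw [h2]
      exact h1
    · have hnot : ¬ (i ∈ A₀ ∧ i ∈ J) := fun h => hiJ h.2
      beta_reduce
      rw [dif_neg hnot]
      refine ⟨fun h => absurd h ?_, fun h => absurd h hiJ⟩
      obtain ⟨p, hp, hpW, hpd⟩ := hkill (i, last) (by
        intro h
        rw [hSv, mem_image] at h
        obtain ⟨x, _, hx⟩ := h
        exact hlast' _ (Prod.ext_iff.1 hx).2)
      have hb := hbig (i, last)
      have h2 : (A i last).1 * ((W * m + ν : ℕ) : ℤ) + (A i last).2 =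
          W * ((A i last).1 * m) + ((A i last).1 * ν + (A i last).2) := by
        push_cast; ring
      apply not_prime_of hp hpW hW
      · rw [h2]
        have h3 : 0 ≤ (W : ℤ) * ((A i last).1 * m) :=
          mul_nonneg hWpos.le (mul_nonneg (hpos _ _).le (Int.natCast_nonneg _))
        simp only at hb
        linarith
      · rw [h2]
        exact dvd_add (Dvd.dvd.mul_right (Int.natCast_dvd_natCast.2 hpW) _) hpd

end Pool.Agent.Y876.HT
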