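import Mathlib
import Pool.Agent.Y876.HT.AAG
import Pool.Agent.Y876.HT.Core

/-! Almost all tuples of linear forms have hereditary exact patterns (helper876). -/

set_option autoImplicit false

namespace Pool.Agent.Y876.HT

open Finset Filter
open Pool.Agent.H361R2 Pool.Agent.H362R2.CM Pool.Agent.TH899.UG
open Pool.Agent.H732R3.BigQ

/-- every set `A` of indices contains a set `I`, `|A| ≤ (4 - c₀) |I|`, all of whose subsets are exact
patterns -/
def Her (c₀ : ℝ) {T : ℕ} (f : Fin T → ℤ × ℤ) : Prop :=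
  ∀ A : Finset (Fin T), ∃ I ⊆ A, (A.card : ℝ) ≤ (4 - c₀) * I.card ∧ ∀ J ⊆ I, Big (Pat f J)

/-- monochromatic boxes -/
theorem box_color (T K₁ : ℕ) (β : Type) [Fintype β] [Nonempty β] : ∃ K : ℕ,
    ∀ col : (Fin T → Fin K) → β, ∃ (b : β) (A : Fin T → Fin K₁ → Fin K),
      (∀ i, Function.Injective (A i)) ∧ ∀ c : Fin T → Fin K₁, col (fun i => A i (c i)) = b := by
  classical
  obtain ⟨C, E, hC, hbox⟩ := box_pow K₁ T
  obtain ⟨R, hR⟩ : ∃ R : ℝ, R = (Fintype.card β : ℝ) := ⟨_, rfl⟩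
  have hR1 : 1 ≤ R := by
    rw [hR]
    exact_mod_cast Fintype.card_pos
  have hR0 : 0 < R := by linarith
  obtain ⟨K, hK⟩ : ∃ K : ℕ, K = ⌈C / (1 / R) ^ E⌉₊ := ⟨_, rfl⟩
  refine ⟨K, fun col => ?_⟩
  have hKC : C / (1 / R) ^ E ≤ K := by rw [hK]; exact Nat.le_ceil _
  have hK0 : (0 : ℝ) < K := lt_of_lt_of_le (by positivity) hKC
  obtain ⟨b, _, hb⟩ := Finset.exists_le_card_fiber_of_nsmul_le_card_of_maps_to
    (s := (univ : Finset (Fin T → Fin K))) (t := (univ : Finset β)) (f := col)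
    (fun _ _ => mem_univ _) univ_nonempty (b := (1 / R) * (K : ℝ) ^ T) (by
      rw [nsmul_eq_mul, card_univ, card_univ, ← hR, Fintype.card_fun, Fintype.card_fin,
        Fintype.card_fin]
      push_cast
      rw [← mul_assoc, mul_one_div_cancel hR0.ne', one_mul])
  obtain ⟨A, hA1, hA2⟩ := hbox (1 / R) (by positivity) (by rw [div_le_one hR0]; exact hR1) (Fin K)
    (fun _ => univ) (fun i => by rw [card_univ, Fintype.card_fin]; exact hKC)
    (univ.filter (fun c => col c = b)) (by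
      intro c _
      rw [Fintype.mem_piFinset]
      exact fun _ => mem_univ _) (by
      simpa using hb)
  exact ⟨b, A, hA1, fun c => (mem_filter.1 (hA2 c)).2⟩

/-- the union of a box of forms, all congruent mod `(TK)!` in each class, is admissible when its
transversals are -/
theorem box_adm (T K : ℕ) (hK : 1 ≤ K) (A : Fin T → Fin K → ℤ × ℤ)
    (hres : ∀ g i j, ((T * K).factorial : ℤ) ∣ (A g i).1 - (A g j).1 ∧
      ((T * K).factorial : ℤ) ∣ (A g i).2 - (A g j).2)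
    (hadm : ∀ c : Fin T → Fin K, Adm (fun g => A g (c g))) :
    ∀ p : ℕ, p.Prime → ∃ n : ℤ, ∀ g i, ¬ ((p : ℤ) ∣ (A g i).1 * n + (A g i).2) := by
  have h0 : 0 < K := hK
  intro p hp
  by_cases hpk : p ≤ T * K
  · obtain ⟨n, hn⟩ := hadm (fun _ => ⟨0, h0⟩) p hp
    refine ⟨n, fun g i hdvd => hn g ?_⟩
    have hpQ : (p : ℤ) ∣ ((T * K).factorial : ℤ) :=
      Int.natCast_dvd_natCast.2 ((hp.dvd_factorial).2 hpk)
    have h1 := hpQ.trans (hres g i ⟨0, h0⟩).1
    have h2 := hpQ.trans (hres g i ⟨0, h0⟩).2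
    have h3 := dvd_sub hdvd (dvd_add (Dvd.dvd.mul_right h1 n) h2)
    have h4 : (A g i).1 * n + (A g i).2 - (((A g i).1 - (A g ⟨0, h0⟩).1) * n +
      ((A g i).2 - (A g ⟨0, h0⟩).2)) = (A g ⟨0, h0⟩).1 * n + (A g ⟨0, h0⟩).2 := by ring
    rwa [h4] at h3
  · push Not at hpk
    obtain ⟨n, hn⟩ := exists_avoid' (m := T * K) hp hpk
      (fun x => (A (finProdFinEquiv.symm x).1 (finProdFinEquiv.symm x).2).1)
      (fun x => (A (finProdFinEquiv.symm x).1 (finProdFinEquiv.symm x).2).2) (by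
        rintro x ⟨h1, h2⟩
        obtain ⟨n, hn⟩ := hadm (fun _ => (finProdFinEquiv.symm x).2) p hp
        exact hn (finProdFinEquiv.symm x).1 (dvd_add (Dvd.dvd.mul_right h1 n) h2))
    refine ⟨n, fun g i => ?_⟩
    have h1 := hn (finProdFinEquiv (g, i))
    simpa only [Equiv.symm_apply_apply] using h1

/-- the union of a box of forms is injective when its transversals are -/
theorem box_inj {T K : ℕ} (A : Fin T → Fin K → ℤ × ℤ) (hAinj : ∀ g, Function.Injective (A g))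
    (hfinj : ∀ c : Fin T → Fin K, Function.Injective (fun g => A g (c g))) :
    Function.Injective (fun x : Fin T × Fin K => A x.1 x.2) := by
  rintro ⟨g, i⟩ ⟨g', i'⟩ hA
  simp only at hA
  by_cases hg : g = g'
  · subst hg
    rw [hAinj g hA]
  · exfalso
    have h1 := hfinj (Function.update (fun _ => i) g' i')
    apply hg
    apply h1
    simp only [Function.update_self, Function.update_of_ne hg]
    exact hA

open Classical in
/-- **Almost all admissible tuples have hereditary exact patterns.** -/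
theorem almost_all_her : ∃ c₀ : ℝ, 0 < c₀ ∧ c₀ < 1 ∧ ∀ T : ℕ,
    ∃ C δ : ℝ, 0 < C ∧ 0 < δ ∧ δ ≤ 1 ∧ ∀ N : ℕ, 1 ≤ N →
    ∀ V : Fin T → Finset (ℤ × ℤ), (∀ i, ∀ f ∈ V i, 0 < f.1) → (∀ i, N ≤ (V i).card) →
    (((Fintype.piFinset V).filter (fun f => Adm f ∧ ¬ Her c₀ f)).card : ℝ) ≤
      C * (N : ℝ) ^ (-δ) * ∏ i, ((V i).card : ℝ) := by
  obtain ⟨c₀, hc₀, hc₁, H⟩ := quarterD
  refine ⟨c₀, hc₀, hc₁, fun T => ?_⟩
  choose Kq hKq HQ using H
  obtain ⟨K₁, hK₁⟩ : ∃ K₁ : ℕ, K₁ = 1 + ∑ t ∈ range (T + 1), Kq t := ⟨_, rfl⟩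
  obtain ⟨K, hK⟩ := box_color T K₁ (Finset (Finset (Fin T)))
  refine almost_all_gen T K (Her c₀) ?_
  intro A hpos hAinj hres hadm hfinj
  by_contra hcon
  push Not at hcon
  obtain ⟨b, A', hA'inj, hA'⟩ := hK (fun c => univ.filter (fun J => Big (Pat (fun g => A g (c g)) J)))
  have hK1pos : 0 < K₁ := by omega
  have hKpos : 1 ≤ K ∨ T = 0 := by
    rcases Nat.eq_zero_or_pos T with h | h
    · exact Or.inr h
    · left
      have := (A' ⟨0, h⟩ ⟨0, hK1pos⟩).2
      omega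
  have hadmU : ∀ p : ℕ, p.Prime → ∃ n : ℤ, ∀ g i, ¬ ((p : ℤ) ∣ (A g i).1 * n + (A g i).2) := by
    rcases hKpos with h | h
    · exact box_adm T K h A hres hadm
    · subst h
      exact fun p _ => ⟨0, fun g => g.elim0⟩
  have hinjU := box_inj A hAinj hfinj
  set c00 : Fin T → Fin K₁ := fun _ => ⟨0, hK1pos⟩ with hc00
  have hbad := hcon (fun g => A' g (c00 g))
  unfold Her at hbad
  push Not at hbad
  obtain ⟨A₀, hA₀⟩ := hbad
  have hle : Kq A₀.card + 1 ≤ K₁ := by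
    have h1 : A₀.card ∈ range (T + 1) := by
      have := card_le_univ A₀
      rw [Fintype.card_fin] at this
      rw [mem_range]; omega
    have h2 := single_le_sum (f := Kq) (fun _ _ => Nat.zero_le _) h1
    omega
  obtain ⟨I, hI1, hI2, hI3⟩ := her_core c₀ T K₁ (Kq A₀.card) hle (fun g i => A g (A' g i))
    (fun g i => hpos _ _)
    (by
      rintro ⟨g, i⟩ ⟨g', i'⟩ h
      have h1 := hinjU (a₁ := (g, A' g i)) (a₂ := (g', A' g' i')) h
      simp only [Prod.mk.injEq] at h1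
      obtain ⟨rfl, h2⟩ := h1
      rw [hA'inj g h2])
    (fun p hp => (hadmU p hp).imp fun n hn g i => hn _ _)
    A₀ (HQ A₀.card)
  obtain ⟨J, hJI, hJ⟩ := hA₀ I hI1 hI2
  obtain ⟨c, hc⟩ := hI3 J hJI
  apply hJ
  have h1 : J ∈ b := by
    rw [← hA' c]
    exact mem_filter.2 ⟨mem_univ _, hc⟩
  rw [← hA' c00] at h1
  exact (mem_filter.1 h1).2

end Pool.Agent.Y876.HT
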